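import Mathlib
import Pool.Agent.P.MP_5814e0_lc.Defs
import Pool.Agent.P.MP_5814e0_lc.OneDefs
import Pool.Agent.P.MP_5814e0_lc.OneMain

set_option autoImplicit false

open FirstOrder FirstOrder.Language Pool.Agent.P.MP_5814e0_lc

universe u

theorem Pool.Agent.Results.MP_5814e0_lc.OneParameter.result :
    ∃ (L : FirstOrder.Language.{0, 0}) (_ : L.IsRelational) (_ : Countable L.Symbols)
    (M : Type) (_ : L.Structure M), Countable M ∧ Infinite M ∧ L.IsUltrahomogeneous M ∧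
    (∃ (n : ℕ) (_ : L.Structure (Fin n)) (B : Type) (_ : L.Structure B),
      n = 1 ∧ Finite B ∧ Nonempty (Fin n ↪[L] M) ∧ Nonempty (B ↪[L] M) ∧
      (∀ χ : (Fin n ↪[L] M) → Fin 2, ExtDef.{u} L M n χ → MonoCopyIn L M n B χ Set.univ) ∧
      ¬ ∃ (C : Type) (_ : L.Structure C), Finite C ∧ Nonempty (C ↪[L] M) ∧
        ∀ (h : C ↪[L] M) (χ : (Fin n ↪[L] M) → Fin 2),
          ExtDef.{u} L M n χ → MonoCopyIn L M n B χ (Set.range h)) ∧
    ∀ (n : ℕ) (_ : L.Structure (Fin n)) (B : Type) (_ : L.Structure B),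
      Finite B → Nonempty (B ↪[L] M) →
      (∀ χ : (Fin n ↪[L] M) → Fin 2, ExtDef.{u} L M n χ → MonoCopyIn L M n B χ Set.univ) ∧
      (Nontrivial (Fin n ↪[L] B) → ∀ (e : M) (S : Set M), S.Finite →
        ∃ χ : (Fin n ↪[L] M) → Fin 2, DefAt L M n e χ ∧ ¬ MonoCopyIn L M n B χ S) :=
  Pool.Agent.P.MP_5814e0_lc.One.main

/-- Q1 as posed: drop the last clause. -/
theorem Pool.Agent.Results.MP_5814e0_lc.OneParameter.posed :
    ∃ (L : FirstOrder.Language.{0, 0}) (_ : L.IsRelational) (_ : Countable L.Symbols)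
    (M : Type) (_ : L.Structure M), Countable M ∧ Infinite M ∧ L.IsUltrahomogeneous M ∧
    ∃ (n : ℕ) (_ : L.Structure (Fin n)) (B : Type) (_ : L.Structure B),
      n = 1 ∧ Finite B ∧ Nonempty (Fin n ↪[L] M) ∧ Nonempty (B ↪[L] M) ∧
      (∀ χ : (Fin n ↪[L] M) → Fin 2, ExtDef.{u} L M n χ → MonoCopyIn L M n B χ Set.univ) ∧
      ¬ ∃ (C : Type) (_ : L.Structure C), Finite C ∧ Nonempty (C ↪[L] M) ∧
        ∀ (h : C ↪[L] M) (χ : (Fin n ↪[L] M) → Fin 2),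
          ExtDef.{u} L M n χ → MonoCopyIn L M n B χ (Set.range h) := by
  obtain ⟨L, h1, h2, M, h3, h4, h5, h6, h7, _⟩ :=
    Pool.Agent.Results.MP_5814e0_lc.OneParameter.result.{u}
  exact ⟨L, h1, h2, M, h3, h4, h5, h6, h7⟩
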