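import Mathlib
import Pool.Agent.P.MP_5814e0_lc.Defs
import Pool.Agent.P.MP_5814e0_lc.OutDefs
import Pool.Agent.P.MP_5814e0_lc.OutB

set_option autoImplicit false

open FirstOrder FirstOrder.Language Pool.Agent.P.MP_5814e0_lc

universe u

theorem Pool.Agent.Results.MP_5814e0_lc.OrderedFinite.result :
    ∃ (L : FirstOrder.Language.{0, 0}) (_ : L.IsRelational) (_ : Finite L.Symbols)
    (M : Type) (_ : L.Structure M), Countable M ∧ Infinite M ∧ L.IsUltrahomogeneous M ∧
    (∃ r : L.Relations 2, IsStrictTotalOrder M fun x y => Structure.RelMap r ![x, y]) ∧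
    (∀ (n : ℕ) (_ : L.Structure (Fin n)) (B : Type) (_ : L.Structure B),
      Finite B → Nonempty (B ↪[L] M) →
      ∀ χ : (Fin n ↪[L] M) → Fin 2, ExtDef.{u} L M n χ → MonoCopyIn L M n B χ Set.univ) ∧
    ∃ (n : ℕ) (_ : L.Structure (Fin n)) (B : Type) (_ : L.Structure B),
      Finite B ∧ Nonempty (Fin n ↪[L] M) ∧ Nonempty (B ↪[L] M) ∧
      ∀ S : Set M, S.Finite →
        ∃ χ : (Fin n ↪[L] M) → Fin 2, OutDef.{u} L M n χ ∧ ¬ MonoCopyIn L M n B χ S :=
  Pool.Agent.P.MP_5814e0_lc.Out.main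

/-- Q1 as posed, from the result. -/
theorem Pool.Agent.Results.MP_5814e0_lc.OrderedFinite.posed :
    ∃ (L : FirstOrder.Language.{0, 0}) (_ : L.IsRelational) (_ : Countable L.Symbols)
    (M : Type) (_ : L.Structure M), Countable M ∧ Infinite M ∧ L.IsUltrahomogeneous M ∧
    ∃ (n : ℕ) (_ : L.Structure (Fin n)) (B : Type) (_ : L.Structure B),
      Finite B ∧ Nonempty (Fin n ↪[L] M) ∧ Nonempty (B ↪[L] M) ∧
      (∀ χ : (Fin n ↪[L] M) → Fin 2, ExtDef.{u} L M n χ → MonoCopyIn L M n B χ Set.univ) ∧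
      ¬ ∃ (C : Type) (_ : L.Structure C), Finite C ∧ Nonempty (C ↪[L] M) ∧
        ∀ (h : C ↪[L] M) (χ : (Fin n ↪[L] M) → Fin 2),
          ExtDef.{u} L M n χ → MonoCopyIn L M n B χ (Set.range h) := by
  obtain ⟨L, h1, h2, M, h3, h4, h5, h6, -, h7, n, sA, B, sB, h8, h9, h10, h11⟩ :=
    Pool.Agent.Results.MP_5814e0_lc.OrderedFinite.result.{u}
  refine ⟨L, h1, inferInstance, M, h3, h4, h5, h6, n, sA, B, sB, h8, h9, h10,
    h7 n sA B sB h8 h10, ?_⟩
  rintro ⟨C, _, hC, ⟨h⟩, hall⟩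
  obtain ⟨χ, ⟨N, sN, j, m, e, φ, -, hφ⟩, hno⟩ := h11 _ (Set.finite_range h)
  exact hno (hall h χ ⟨N, sN, j, m, e, φ, hφ⟩)

/-- With such an order symbol every finite structure embeddable in `M` is rigid. -/
theorem Pool.Agent.Results.MP_5814e0_lc.OrderedFinite.rigid {L : FirstOrder.Language.{0, 0}}
    {M : Type} [L.Structure M] (r : L.Relations 2)
    (h : IsStrictTotalOrder M fun x y => Structure.RelMap r ![x, y]) {A : Type} [L.Structure A]
    [Finite A] (g : A ↪[L] M) (σ : A ≃[L] A) (a : A) : σ a = a := by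
  classical
  let _ : LinearOrder M := linearOrderOfSTO fun x y => Structure.RelMap r ![x, y]
  let _ : LinearOrder A := LinearOrder.lift' g g.injective
  have key : ∀ (f : A ↪[L] M) (x y : A), f x < f y ↔ Structure.RelMap r ![x, y] := by
    intro f x y
    rw [← f.map_rel r (![x, y])]
    have : f ∘ ![x, y] = ![f x, f y] := by
      funext i
      fin_cases i <;> rfl
    rw [this]
    rfl
  have hm : StrictMono (fun x : A => σ x) := by
    intro x y hxy
    have h1 : g x < g y := hxy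
    have h2 := (key (g.comp σ.toEmbedding) x y).2 ((key g x y).1 h1)
    exact h2
  exact le_antisymm (hm.le_id a) (hm.id_le a)
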